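import Pool.Agent.X277.PF.Large

/-!
# Free subgroups of the groups with the finite quotients of a large group
-/

set_option autoImplicit false

open Set Function

noncomputable section

namespace Pool.Agent.Results.MP_305fdd_al.FreeSubgroups

open Pool.Agent.X277.PF

/-- (1) Let all finite `p`-group quotients of `F_n` be quotients of `Λ`. Then any `n` elements of `Λ`
which are not killed together by a nontrivial homomorphism from `Λ` to `ℤ/p` are a basis of a free
subgroup; (2) if, moreover, `Λ` is finitely generated, then it contains a free group of rank `n`;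
(3) if `Γ` has a subgroup of finite index mapping onto `F_n` and `Λ` is finitely generated and has all
finite quotients of `Γ` among its quotients, then `Λ` contains a free group of rank `n`. -/
theorem result (n : ℕ) :
    (∀ p : ℕ, p.Prime → ∀ (Λ : Type) [Group Λ], HasPQuotientsOf p Λ (FreeGroup (Fin n)) →
      (∀ a : Fin n → Λ, (∀ χ : Λ →* Multiplicative (ZMod p), (∀ i, χ (a i) = 1) → χ = 1) →
        Injective (FreeGroup.lift a)) ∧
      (Group.FG Λ → ∃ a : Fin n → Λ, Injective (FreeGroup.lift a))) ∧
    (∀ (Γ : Type) [Group Γ] (Δ : Subgroup Γ), Δ.FiniteIndex →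
      (∃ τ : Δ →* FreeGroup (Fin n), Surjective τ) →
      ∀ (Λ : Type) [Group Λ], Group.FG Λ → HasQuotientsOf Λ Γ →
        ∃ a : Fin n → Λ, Injective (FreeGroup.lift a)) := by
  constructor
  · intro p hp Λ _ h
    have : Fact p.Prime := ⟨hp⟩
    exact ⟨fun a ha => lift_injective h a ha, fun hfg => exists_free (p := p) hfg h⟩
  · rintro Γ _ Δ hΔ ⟨τ, hτ⟩ Λ _ hfg h
    exact large_free hfg h Δ τ hτ

end Pool.Agent.Results.MP_305fdd_al.FreeSubgroups
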