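import Pool.Agent.X277.GS.Index

/-!
# Growth of the groups with the finite quotients of a group with few relations
-/

set_option autoImplicit false

open Set Function

noncomputable section

namespace Pool.Agent.Results.MP_305fdd_al.GolodShafarevichGrowth

open Pool.Agent.X277.PF Pool.Agent.X277.GS

/-- `Γ` has a presentation with `d` generators and `m` relators. -/
def HasPresentation (Γ : Type) [Group Γ] (d m : ℕ) : Prop :=
  ∃ (x : Fin d → Γ) (r : Fin m → FreeGroup (Fin d)), Surjective (FreeGroup.lift x) ∧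
    (FreeGroup.lift x).ker = Subgroup.normalClosure (range r)

theorem card_hom_free {p : ℕ} [Fact p.Prime] {d m : ℕ} (r : Fin m → FreeGroup (Fin d))
    (hr : ∀ j, r j ∈ commutator (FreeGroup (Fin d))) {Γ : Type} [Group Γ] (x : Fin d → Γ)
    (hsurj : Surjective (FreeGroup.lift x))
    (hker : (FreeGroup.lift x).ker = Subgroup.normalClosure (range r)) :
    Nat.card (Γ →* Multiplicative (ZMod p)) = p ^ d := by
  rw [card_hom x r hsurj hker]
  congr 1
  have h1 : MX p x r = 0 := by
    ext j i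
    have h2 := lift_expo (p := p) x (Pi.single i 1) (r j)
    have h3 : FreeGroup.lift (fun l => Multiplicative.ofAdd ((Pi.single i 1 : Fin d → ZMod p) l))
        (r j) = 1 := Abelianization.commutator_subset_ker _ (hr j)
    rw [h3, Finset.sum_eq_single i] at h2
    · rw [Pi.single_eq_same, mul_one] at h2
      exact (Multiplicative.ofAdd.injective h2).symm
    · intro l _ hl
      rw [Pi.single_eq_of_ne hl, mul_zero]
    · intro h
      exact absurd (Finset.mem_univ i) h
  rw [h1, Matrix.mulVecLin_zero, LinearMap.ker_zero, finrank_top, Module.finrank_fin_fun]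

theorem quot_lift {d m : ℕ} (r : Fin m → FreeGroup (Fin d)) :
    FreeGroup.lift (fun i => (QuotientGroup.mk (FreeGroup.of i) :
      FreeGroup (Fin d) ⧸ Subgroup.normalClosure (range r))) =
      QuotientGroup.mk' (Subgroup.normalClosure (range r)) := by
  ext i
  rw [FreeGroup.lift_apply_of]
  rfl

/-- (1) Let `Γ` have a presentation with `d` generators and `m` relators and exactly `p ^ e`
homomorphisms to `Z/p`, and let `ρ > 0` with `ρ ^ 2 + (m + e - d) ≤ e * ρ`. If all finite
`p`-group quotients of `Γ` are quotients of `Λ`, then for every finite generating set `S` of `Λ` at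
least `1 + ρ + ... + ρ ^ k` elements are products of at most `k` elements of `S`; (2) if a quotient
`F` of a subgroup `Δ` of index `N` in `Γ` is as in (1), and all finite quotients of `Γ` are
quotients of `Λ`, then this holds for products of at most `(2 N - 1) k` elements of `S`; (3) the
case of relators in the commutator subgroup, in particular of surface groups. -/
theorem result :
    (∀ (p : ℕ) [Fact p.Prime] (Γ Λ : Type) [Group Γ] [Group Λ] (d m e : ℕ) (ρ : ℝ),
      HasPresentation Γ d m → Nat.card (Γ →* Multiplicative (ZMod p)) = p ^ e →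
      0 < ρ → ρ ^ 2 + (m + e - d) ≤ e * ρ → HasPQuotientsOf p Λ Γ →
      ∀ S : Set Λ, S.Finite → Subgroup.closure S = ⊤ → ∀ k : ℕ,
        ∑ i ∈ Finset.range (k + 1), ρ ^ i ≤ (posBall S k).ncard) ∧
    (∀ (p : ℕ) [Fact p.Prime] (Γ Λ F : Type) [Group Γ] [Group Λ] [Group F] (Δ : Subgroup Γ),
      Δ.FiniteIndex → (∃ τ : Δ →* F, Surjective τ) → ∀ (d m e : ℕ) (ρ : ℝ),
      HasPresentation F d m → Nat.card (F →* Multiplicative (ZMod p)) = p ^ e →
      0 < ρ → ρ ^ 2 + (m + e - d) ≤ e * ρ → HasQuotientsOf Λ Γ →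
      ∀ S : Set Λ, S.Finite → Subgroup.closure S = ⊤ → ∀ k : ℕ,
        ∑ i ∈ Finset.range (k + 1), ρ ^ i ≤ (posBall S ((2 * Δ.index - 1) * k)).ncard) ∧
    (∀ (p : ℕ) [Fact p.Prime] (d m : ℕ) (r : Fin m → FreeGroup (Fin d)), 0 < d →
      4 * m ≤ d ^ 2 → (∀ j, r j ∈ commutator (FreeGroup (Fin d))) →
      ∀ (Λ : Type) [Group Λ],
      HasPQuotientsOf p Λ (FreeGroup (Fin d) ⧸ Subgroup.normalClosure (range r)) →
      ∀ S : Set Λ, S.Finite → Subgroup.closure S = ⊤ → ∀ k : ℕ,
        ∑ i ∈ Finset.range (k + 1), ((d + √((d : ℝ) ^ 2 - 4 * m)) / 2) ^ i ≤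
          (posBall S k).ncard) := by
  refine ⟨?_, ?_, ?_⟩
  · intro p _ Γ Λ _ _ d m e ρ ⟨x, r, h1, h2⟩ he hρ hineq hΛ S hSf hS k
    exact growth_gs x r h1 h2 he hρ hineq hΛ hSf hS k
  · intro p _ Γ Λ F _ _ _ Δ hΔ ⟨τ, hτ⟩ d m e ρ ⟨x, r, h1, h2⟩ he hρ hineq hΛ S hSf hS k
    exact growth_virtual hΛ Δ τ hτ x r h1 h2 he hρ hineq hSf hS k
  · intro p _ d m r hd hm hr Λ _ hΛ S hSf hS k
    have h1 : Surjective (FreeGroup.lift (fun i => (QuotientGroup.mk (FreeGroup.of i) :
        FreeGroup (Fin d) ⧸ Subgroup.normalClosure (range r)))) := by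
      rw [quot_lift]
      exact QuotientGroup.mk'_surjective _
    have h2 : (FreeGroup.lift (fun i => (QuotientGroup.mk (FreeGroup.of i) :
        FreeGroup (Fin d) ⧸ Subgroup.normalClosure (range r)))).ker =
        Subgroup.normalClosure (range r) := by
      rw [quot_lift, QuotientGroup.ker_mk']
    have h3 : (0 : ℝ) < d := Nat.cast_pos.2 hd
    have h4 : (0 : ℝ) ≤ (d : ℝ) ^ 2 - 4 * m := by
      have : (4 : ℝ) * m ≤ (d : ℝ) ^ 2 := by exact_mod_cast hm
      linarith
    have h5 := Real.sq_sqrt h4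
    have h6 := Real.sqrt_nonneg ((d : ℝ) ^ 2 - 4 * m)
    refine growth_gs _ r h1 h2 (card_hom_free r hr _ h1 h2) (by linarith) ?_ hΛ hSf hS k
    nlinarith

end Pool.Agent.Results.MP_305fdd_al.GolodShafarevichGrowth
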