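import Pool.Agent.X277.PF.Large

/-!
# Growth of the groups with the finite quotients of a free group
-/

set_option autoImplicit false

open Set Function

noncomputable section

namespace Pool.Agent.Results.MP_305fdd_al.PositiveWordGrowth

open Pool.Agent.X277.PF

/-- (1) If all finite quotients of the free group `F_n` are quotients of `Λ`, then for every finite
generating set `S` of `Λ` at least `1 + n + ... + n^k` elements are products of at most `k` elements
of `S`; (2) this is sharp; (3) if `Γ` has a subgroup `Δ` of finite index with a surjection to `F_n` and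
`Λ` is finitely generated and has all finite quotients of `Γ` among its quotients, then `Λ` has a
subgroup of index `[Γ : Δ]` with the property (1). -/
theorem result (n : ℕ) :
    (∀ (Λ : Type) [Group Λ], HasQuotientsOf Λ (FreeGroup (Fin n)) →
      ∀ S : Set Λ, S.Finite → Subgroup.closure S = ⊤ → ∀ k : ℕ,
        ∑ i ∈ Finset.range (k + 1), n ^ i ≤ (posBall S k).ncard) ∧
    (∀ k : ℕ, (posBall (range (FreeGroup.of : Fin n → FreeGroup (Fin n))) k).ncard =
      ∑ i ∈ Finset.range (k + 1), n ^ i) ∧
    (∀ (Γ : Type) [Group Γ] (Δ : Subgroup Γ), Δ.FiniteIndex →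
      (∃ τ : Δ →* FreeGroup (Fin n), Surjective τ) →
      ∀ (Λ : Type) [Group Λ], Group.FG Λ → HasQuotientsOf Λ Γ →
        ∃ H : Subgroup Λ, H.index = Δ.index ∧ ∀ S : Set H, S.Finite → Subgroup.closure S = ⊤ →
          ∀ k : ℕ, ∑ i ∈ Finset.range (k + 1), n ^ i ≤ (posBall S k).ncard) := by
  refine ⟨fun Λ _ h S hSf hS k => growth_quot h hSf hS k, fun k => growth_free n k, ?_⟩
  rintro Γ _ Δ hΔ ⟨τ, hτ⟩ Λ _ hfg h
  obtain ⟨H, hH, hHQ⟩ := exists_subgroup_quotients hfg h Δ τ hτ
  exact ⟨H, hH, fun S hSf hS k => growth_quot hHQ hSf hS k⟩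

end Pool.Agent.Results.MP_305fdd_al.PositiveWordGrowth
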