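import Pool.Agent.X277.DM.Girth

/-!
# A Freiheitssatz for the groups with the finite quotients of a surface group
-/

set_option autoImplicit false

open Set Function

noncomputable section

namespace Pool.Agent.Results.MP_305fdd_al.SurfaceFreiheitssatz

open Pool.Agent.X277.PF Pool.Agent.X277.GS Pool.Agent.X277.DM

/-- `γ - 1` lies in the power `I ^ (k + 1)` of the augmentation ideal `I` of `𝔽_p[Γ]`. -/
def InDim (p k : ℕ) {Γ : Type} [Group Γ] (γ : Γ) : Prop := ge p γ - 1 ∈ AI p Γ ^ (k + 1)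

/-- No proper subfamily of the family `a` satisfies a nontrivial relation of length at most `k`. -/
def GirthGT {Λ : Type} [Group Λ] {m : ℕ} (a : Fin m → Λ) (k : ℕ) : Prop :=
  ∀ (n : ℕ) (ι : Fin n → Fin m), Injective ι → ¬ Surjective ι →
    ∀ x : FreeGroup (Fin n), x ≠ 1 → x.norm ≤ k → FreeGroup.lift (a ∘ ι) x ≠ 1

/-- Every proper subfamily of `a` is a basis of a free subgroup. -/
def ProperFree {Λ : Type} [Group Λ] {m : ℕ} (a : Fin m → Λ) : Prop :=
  ∀ (n : ℕ) (ι : Fin n → Fin m), Injective ι → ¬ Surjective ι →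
    Injective (FreeGroup.lift (a ∘ ι))

/-- `a` generates `Λ` modulo commutators and `p`-th powers. -/
def GeneratesMod (p : ℕ) {Λ : Type} [Group Λ] {m : ℕ} (a : Fin m → Λ) : Prop :=
  ∀ χ : Λ →* Multiplicative (ZMod p), (∀ i, χ (a i) = 1) → χ = 1

theorem not_surj {n m : ℕ} {ι : Fin n → Fin m} (h : ¬ Surjective ι) : ∃ q, ∀ j, ι j ≠ q := by
  unfold Surjective at h
  push Not at h
  exact h

theorem exists_level {p k : ℕ} {Γ Λ Q : Type} [Group Γ] [Group Λ] [Group Q] (φ : Γ →* Q)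
    (π : Λ →* Q) (hφ : Surjective φ) (hπ : Surjective π) (h : ∀ γ, φ γ = 1 → InDim p k γ) :
    ∃ π' : Λ →* GG p Γ k, Surjective π' := by
  have hle : φ.ker ≤ (fB p Γ k).toHomUnits.rangeRestrict.ker := by
    intro γ hγ
    have h1 := mkB_eq_zero (h γ hγ)
    rw [map_sub, map_one, sub_eq_zero] at h1
    exact MonoidHom.mem_ker.2 (Subtype.ext (Units.ext h1))
  let ψ : Q →* GG p Γ k :=
    φ.liftOfRightInverse (surjInv hφ) (surjInv_eq hφ)
      ⟨(fB p Γ k).toHomUnits.rangeRestrict, hle⟩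
  have hψ : ∀ z, ψ (φ z) = (fB p Γ k).toHomUnits.rangeRestrict z :=
    MonoidHom.liftOfRightInverse_comp_apply _ _ _ _
  refine ⟨ψ.comp π, fun z => ?_⟩
  obtain ⟨γ, rfl⟩ := (fB p Γ k).toHomUnits.rangeRestrict_surjective z
  obtain ⟨t, ht⟩ := hπ (φ γ)
  exact ⟨t, by rw [MonoidHom.comp_apply, ht, hψ]⟩

/-- Every generating set of `Λ` contains a family of `m` elements with `GirthGT _ k`, and every family
of `m` elements which generates `Λ` modulo commutators and `p`-th powers has `GirthGT _ k`. -/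
def FreiheitUpTo (p m k : ℕ) (Λ : Type) [Group Λ] : Prop :=
  (∀ S : Set Λ, Subgroup.closure S = ⊤ → ∃ a : Fin m → Λ, (∀ i, a i ∈ S) ∧ GirthGT a k) ∧
    ∀ a : Fin m → Λ, GeneratesMod p a → GirthGT a k

/-- Every finite generating set of `Λ` contains a family of `m` elements with `ProperFree`, and every
family of `m` elements which generates `Λ` modulo commutators and `p`-th powers has `ProperFree`. -/
def Freiheit (p m : ℕ) (Λ : Type) [Group Λ] : Prop :=
  (∀ S : Set Λ, S.Finite → Subgroup.closure S = ⊤ →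
    ∃ a : Fin m → Λ, (∀ i, a i ∈ S) ∧ ProperFree a) ∧
    ∀ a : Fin m → Λ, GeneratesMod p a → ProperFree a

/-- Let `p` be a prime and `Γ` the surface group of genus `g`.
(1) Let `Q` be a quotient of `Γ` such that the kernel of `Γ → Q` lies in the dimension subgroup
`{γ | γ - 1 ∈ I ^ (k + 1)}`, `k ≥ 1`. If `Λ` maps onto `Q`, then `FreiheitUpTo p (2 g) k` holds
for `Λ`.
(2) If all finite `p`-quotients of `Γ` are quotients of `Λ`, then `Freiheit p (2 g)` holds for `Λ`.
(3) If a subgroup `Δ` of finite index of a group `G` maps onto `Γ` and `Λ` is finitely generated and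
has all finite quotients of `G` as quotients, then `Freiheit p (2 g)` holds for a subgroup `H` of `Λ`
of the index of `Δ`. -/
theorem result (p : ℕ) [Fact p.Prime] (g : ℕ) :
    (∀ (Λ Q : Type) [Group Λ] [Group Q] (k : ℕ), 1 ≤ k →
      ∀ (φ : SurfaceGroup g →* Q) (π : Λ →* Q), Surjective φ → Surjective π →
      (∀ γ, φ γ = 1 → InDim p k γ) → FreiheitUpTo p (2 * g) k Λ) ∧
    (∀ (Λ : Type) [Group Λ], HasPQuotientsOf p Λ (SurfaceGroup g) → Freiheit p (2 * g) Λ) ∧
    (∀ (G : Type) [Group G] (Δ : Subgroup G), Δ.FiniteIndex →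
      (∃ τ : Δ →* SurfaceGroup g, Surjective τ) →
      ∀ (Λ : Type) [Group Λ], Group.FG Λ → HasQuotientsOf Λ G →
        ∃ H : Subgroup Λ, H.index = Δ.index ∧ Freiheit p (2 * g) H) := by
  have h2 : ∀ (Λ : Type) [Group Λ], HasPQuotientsOf p Λ (SurfaceGroup g) →
      Freiheit p (2 * g) Λ := by
    intro Λ _ hΛ
    constructor
    · intro S hSf hS
      obtain ⟨a, haS, ha⟩ := exists_tuple hΛ hSf hS
      refine ⟨a, haS, fun n ι hι hιs => ?_⟩
      obtain ⟨q, hq⟩ := not_surj hιs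
      exact injective_of_good a ha q ι hι hq
    · intro a ha n ι hι hιs
      obtain ⟨q, hq⟩ := not_surj hιs
      refine injective_of_good (p := p) a (fun K => ?_) q ι hι hq
      obtain ⟨π, hπ⟩ := exists_surj hΛ (K + 1)
      exact ⟨K + 1, by omega, good_of_hom (by omega) π hπ a ha⟩
  refine ⟨?_, h2, ?_⟩
  · intro Λ Q _ _ k hk φ π0 hφ hπ0 hker
    obtain ⟨π, hπ⟩ := exists_level φ π0 hφ hπ0 hker
    constructor
    · intro S hS
      obtain ⟨a, haS, ha⟩ := exists_good_tuple hk π hπ hS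
      refine ⟨a, haS, fun n ι hι hιs x hx hxk => ?_⟩
      obtain ⟨q, hq⟩ := not_surj hιs
      exact ne_one_of_good a ha q ι hι hq x hx hxk
    · intro a ha n ι hι hιs x hx hxk
      obtain ⟨q, hq⟩ := not_surj hιs
      exact ne_one_of_good a (good_of_hom hk π hπ a ha) q ι hι hq x hx hxk
  · rintro G _ Δ hΔ ⟨τ, hτ⟩ Λ _ hfg hΛ
    obtain ⟨H, hH, hHQ⟩ := exists_subgroup_quotients hfg hΛ Δ τ hτ
    exact ⟨H, hH, h2 H (hHQ.p p)⟩

end Pool.Agent.Results.MP_305fdd_al.SurfaceFreiheitssatz
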